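import Pool.Agent.Work.MP_a98e4e_ag.Fu.L.Rank14
import Pool.Agent.Work.MP_a98e4e_ag.Fu.Core.SetupOf

/-!
# Perfect ideals of codimension at least four with Dynkin invariants are licci
-/

namespace Pool.Agent.Results.MP_a98e4e_ag.Dynkin

open IsLocalRing

universe u

/-- Every perfect ideal `I` of codimension `c ≥ 4`, deviation `d ≥ 1` and type `t ≥ 1` of a regular
local ring `R` with residue field of characteristic zero is licci if `T_{c-1, d+1, t+1}` is
Dynkin. -/
theorem result (R : Type u) [CommRing R] [IsRegularLocalRing R] [CharZero (ResidueField R)]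
    (I : Ideal R) (c d t : ℕ) (hc : 4 ≤ c) (hd : 1 ≤ d) (ht : 1 ≤ t)
    (hdyn : LicciCodimFour.IsDynkinT (c - 1) (d + 1) (t + 1))
    (hI : LicciCodimFour.IsPerfectOfInvariants I c d t) :
    LicciCodimFour.IsLicci I :=
  Pool.Agent.Licci.Fin6.licci_of_coreUnit (fun S => Pool.Agent.Licci.Fin6.coreUnit S)
    R I c d t hc hd ht hdyn hI

end Pool.Agent.Results.MP_a98e4e_ag.Dynkin
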